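import Mathlib

/-!
Bootstrap percolation on Hamming tori: deterministic part.
-/

set_option autoImplicit false

open Finset

namespace Pool.Agent.KS6_54.HT

/-- The vertices of the Hamming torus. -/
abbrev V (n d : ℕ) : Type := Fin d → Fin n

/-- One step of bootstrap percolation with threshold `θ` on the Hamming torus: a vertex becomes
open when at least `θ` vertices at Hamming distance one from it are open. -/
def step {n d : ℕ} (θ : ℕ) (ω : V n d → Bool) : V n d → Bool :=
  fun v => ω v || decide (θ ≤ (univ.filter fun w => hammingDist v w = 1 ∧ ω w = true).card)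

/-- The vertex `v` is open in the final configuration started from `ω`. -/
def FinalOpen {n d : ℕ} (θ : ℕ) (ω : V n d → Bool) (v : V n d) : Prop :=
  ∃ j : ℕ, (step θ)^[j] ω v = true

/-- Some `i`-dimensional subgraph is open in the final configuration. -/
def SubgraphOpen {n d : ℕ} (θ i : ℕ) (ω : V n d → Bool) : Prop :=
  ∃ J : Finset (Fin d), J.card = i ∧ ∃ a : V n d, ∀ x : V n d, (∀ k, k ∉ J → x k = a k) →
    FinalOpen θ ω x

variable {n d : ℕ}

lemma step_of_true {θ : ℕ} {ω : V n d → Bool} {v : V n d} (h : ω v = true) :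
    step θ ω v = true := by simp [step, h]

lemma iter_mono {θ : ℕ} {ω : V n d → Bool} {v : V n d} {j k : ℕ} (hjk : j ≤ k)
    (h : (step θ)^[j] ω v = true) : (step θ)^[k] ω v = true := by
  induction k, hjk using Nat.le_induction with
  | base => exact h
  | succ k _ ih =>
    rw [Function.iterate_succ_apply']
    exact step_of_true ih

lemma final_of_init {θ : ℕ} {ω : V n d → Bool} {v : V n d} (h : ω v = true) :
    FinalOpen θ ω v := ⟨0, h⟩

lemma final_of_three {ω : V n d → Bool} {v a b c : V n d} (hab : a ≠ b) (hac : a ≠ c)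
    (hbc : b ≠ c) (ha : hammingDist v a = 1) (hb : hammingDist v b = 1) (hc : hammingDist v c = 1)
    (fa : FinalOpen 3 ω a) (fb : FinalOpen 3 ω b) (fc : FinalOpen 3 ω c) : FinalOpen 3 ω v := by
  classical
  obtain ⟨ja, ha'⟩ := fa
  obtain ⟨jb, hb'⟩ := fb
  obtain ⟨jc, hc'⟩ := fc
  set j := max ja (max jb jc)
  have h1 := iter_mono (le_max_left ja (max jb jc)) ha'
  have h2 := iter_mono ((le_max_left jb jc).trans (le_max_right ja (max jb jc))) hb'
  have h3 := iter_mono ((le_max_right jb jc).trans (le_max_right ja (max jb jc))) hc'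
  refine ⟨j + 1, ?_⟩
  rw [Function.iterate_succ_apply', step]
  rw [Bool.or_eq_true]
  right
  rw [decide_eq_true_iff]
  have hsub : ({a, b, c} : Finset (V n d)) ⊆
      univ.filter fun w => hammingDist v w = 1 ∧ (step 3)^[j] ω w = true := by
    intro x hx
    simp only [mem_insert, mem_singleton] at hx
    rw [mem_filter]
    rcases hx with rfl | rfl | rfl
    · exact ⟨mem_univ _, ha, h1⟩
    · exact ⟨mem_univ _, hb, h2⟩
    · exact ⟨mem_univ _, hc, h3⟩
  calc 3 = ({a, b, c} : Finset (V n d)).card := (card_eq_three.2 ⟨a, b, c, hab, hac, hbc, rfl⟩).symm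
    _ ≤ _ := card_le_card hsub

lemma final_subset {ω : V n d → Bool} {U : Set (V n d)} (h0 : ∀ v, ω v = true → v ∈ U)
    (hU : ∀ v a b c, a ≠ b → a ≠ c → b ≠ c → hammingDist v a = 1 → hammingDist v b = 1 →
      hammingDist v c = 1 → a ∈ U → b ∈ U → c ∈ U → v ∈ U)
    {v : V n d} (hv : FinalOpen 3 ω v) : v ∈ U := by
  obtain ⟨j, hj⟩ := hv
  induction j generalizing v with
  | zero => exact h0 v hj
  | succ j ih =>
    rw [Function.iterate_succ_apply', step, Bool.or_eq_true] at hj
    rcases hj with hj | hj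
    · exact ih hj
    · rw [decide_eq_true_iff] at hj
      obtain ⟨a, ha, b, hb, c, hc, hab, hac, hbc⟩ :=
        two_lt_card.1 (lt_of_lt_of_le (by norm_num : 2 < 3) hj)
      rw [mem_filter] at ha hb hc
      exact hU v a b c hab hac hbc ha.2.1 hb.2.1 hc.2.1 (ih ha.2.2) (ih hb.2.2) (ih hc.2.2)

/-- coordinates which are not constant on `K` -/
noncomputable def free (K : Finset (V n d)) : Finset (Fin d) := by
  classical exact univ.filter fun k => ∃ x ∈ K, ∃ y ∈ K, x k ≠ y k

lemma mem_free {K : Finset (V n d)} {k : Fin d} : k ∈ free K ↔ ∃ x ∈ K, ∃ y ∈ K, x k ≠ y k := by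
  unfold free
  classical rw [mem_filter]
  simp

/-- the smallest subgraph containing `K` -/
def cube (K : Finset (V n d)) : Set (V n d) := {v | ∀ k, k ∉ free K → ∀ x ∈ K, v k = x k}

lemma subset_cube {K : Finset (V n d)} {x : V n d} (hx : x ∈ K) : x ∈ cube K := by
  intro k hk y hy
  by_contra h
  exact hk (mem_free.2 ⟨x, hx, y, hy, h⟩)

lemma dist_one_eq {v a : V n d} (h : hammingDist v a = 1) {k l : Fin d} (hk : v k ≠ a k)
    (hl : v l ≠ a l) : k = l := by
  unfold hammingDist at h
  rw [card_eq_one] at h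
  obtain ⟨m, hm⟩ := h
  have h1 : k ∈ univ.filter fun i => v i ≠ a i := by simp [hk]
  have h2 : l ∈ univ.filter fun i => v i ≠ a i := by simp [hl]
  rw [hm, mem_singleton] at h1 h2
  rw [h1, h2]

lemma cube_closed {K : Finset (V n d)} {v a b : V n d} (hab : a ≠ b) (ha : hammingDist v a = 1)
    (hb : hammingDist v b = 1) (haK : a ∈ cube K) (hbK : b ∈ cube K) :
    v ∈ cube K := by
  intro k hk x hx
  by_contra hne
  have h1 : a k = x k := haK k hk x hx
  have h2 : b k = x k := hbK k hk x hx
  apply hab
  funext l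
  by_cases hl : l = k
  · rw [hl, h1, h2]
  · have e1 : v l = a l := by
      by_contra h
      exact hl (dist_one_eq ha h (by rw [h1]; exact hne))
    have e2 : v l = b l := by
      by_contra h
      exact hl (dist_one_eq hb h (by rw [h2]; exact hne))
    rw [← e1, ← e2]

lemma dim_union [DecidableEq (V n d)] {K L : Finset (V n d)} {a b : V n d} (haK : a ∈ cube K)
    (hbL : b ∈ cube L) :
    (free (K ∪ L)).card ≤ (free K).card + (free L).card + hammingDist a b := by
  classical
  have hsub : free (K ∪ L) ⊆ free K ∪ free L ∪ univ.filter fun k => a k ≠ b k := by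
    intro k hk
    by_contra hcon
    rw [mem_union, mem_union, not_or, not_or] at hcon
    obtain ⟨⟨h1, h2⟩, h3⟩ := hcon
    have h3' : a k = b k := by
      by_contra h; exact h3 (by simp [h])
    obtain ⟨x, hx, y, hy, hxy⟩ := mem_free.1 hk
    have key : ∀ z ∈ K ∪ L, z k = a k := by
      intro z hz
      rcases mem_union.1 hz with hz | hz
      · exact (haK k h1 z hz).symm
      · rw [h3']; exact (hbL k h2 z hz).symm
    exact hxy (by rw [key x hx, key y hy])
  calc (free (K ∪ L)).card ≤ (free K ∪ free L ∪ univ.filter fun k => a k ≠ b k).card :=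
        card_le_card hsub
    _ ≤ (free K ∪ free L).card + (univ.filter fun k => a k ≠ b k).card := card_union_le _ _
    _ ≤ (free K).card + (free L).card + (univ.filter fun k => a k ≠ b k).card := by
        have := card_union_le (free K) (free L)
        omega
    _ = _ := rfl

lemma dim_union3 [DecidableEq (V n d)] {K L M : Finset (V n d)} {v a b c : V n d}
    (haK : a ∈ cube K) (hbL : b ∈ cube L) (hcM : c ∈ cube M) :
    (free (K ∪ L ∪ M)).card ≤ (free K).card + (free L).card + (free M).card +
      (hammingDist v a + hammingDist v b + hammingDist v c) := by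
  classical
  have hsub : free (K ∪ L ∪ M) ⊆ (free K ∪ free L ∪ free M) ∪
      ((univ.filter fun k => v k ≠ a k) ∪ (univ.filter fun k => v k ≠ b k) ∪
        univ.filter fun k => v k ≠ c k) := by
    intro k hk
    by_contra hcon
    simp only [mem_union, not_or] at hcon
    obtain ⟨⟨⟨h1, h2⟩, h3⟩, ⟨h4, h5⟩, h6⟩ := hcon
    have h4' : v k = a k := by
      by_contra h; exact h4 (by simp [h])
    have h5' : v k = b k := by
      by_contra h; exact h5 (by simp [h])
    have h6' : v k = c k := by
      by_contra h; exact h6 (by simp [h])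
    obtain ⟨x, hx, y, hy, hxy⟩ := mem_free.1 hk
    have key : ∀ z ∈ K ∪ L ∪ M, z k = v k := by
      intro z hz
      rcases mem_union.1 hz with hz | hz
      · rcases mem_union.1 hz with hz | hz
        · rw [h4']; exact (haK k h1 z hz).symm
        · rw [h5']; exact (hbL k h2 z hz).symm
      · rw [h6']; exact (hcM k h3 z hz).symm
    exact hxy (by rw [key x hx, key y hy])
  refine (card_le_card hsub).trans ((card_union_le _ _).trans ?_)
  have h1 := card_union_le (free K ∪ free L) (free M)
  have h2 := card_union_le (free K) (free L)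
  have h3 := card_union_le ((univ.filter fun k => v k ≠ a k) ∪ (univ.filter fun k => v k ≠ b k))
    (univ.filter fun k => v k ≠ c k)
  have h4 := card_union_le (univ.filter fun k => v k ≠ a k) (univ.filter fun k => v k ≠ b k)
  unfold hammingDist
  omega

/-- a family of clusters covering `A` -/
structure Valid (m : ℕ) (A : Finset (V n d)) (F : Finset (Finset (V n d))) : Prop where
  good : ∀ K ∈ F, K.Nonempty ∧ K ⊆ A ∧ 2 * (free K).card + 3 ≤ 3 * K.card ∧ K.card ≤ m
  disj : ∀ K ∈ F, ∀ L ∈ F, K ≠ L → Disjoint K L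
  cover : ∀ a ∈ A, ∃ K ∈ F, a ∈ K

lemma exists_valid {m : ℕ} (hm : 1 ≤ m) (A : Finset (V n d)) : ∃ F, Valid m A F := by
  classical
  refine ⟨A.image fun a => {a}, ?_, ?_, ?_⟩
  · intro K hK
    obtain ⟨a, ha, rfl⟩ := mem_image.1 hK
    refine ⟨singleton_nonempty a, singleton_subset_iff.2 ha, ?_, by simpa using hm⟩
    have : free ({a} : Finset (V n d)) = ∅ := by
      rw [eq_empty_iff_forall_notMem]
      intro k hk
      obtain ⟨x, hx, y, hy, hxy⟩ := mem_free.1 hk
      rw [mem_singleton] at hx hy
      exact hxy (by rw [hx, hy])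
    rw [this]
    simp
  · intro K hK L hL hne
    obtain ⟨a, _, rfl⟩ := mem_image.1 hK
    obtain ⟨b, _, rfl⟩ := mem_image.1 hL
    rw [disjoint_singleton]
    rintro rfl
    exact hne rfl
  · intro a ha
    exact ⟨{a}, mem_image.2 ⟨a, ha, rfl⟩, mem_singleton_self a⟩

open Classical in
/-- in a family with the least number of clusters no clusters can be merged -/
lemma no_merge {m : ℕ} {A : Finset (V n d)} {F : Finset (Finset (V n d))} (hF : Valid m A F)
    (hmin : ∀ F', Valid m A F' → F.card ≤ F'.card) {G : Finset (Finset (V n d))} (hG : G ⊆ F)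
    (h2 : 2 ≤ G.card) (hd : 2 * (free (G.biUnion id)).card + 3 ≤ 3 * (G.biUnion id).card)
    (hm : (G.biUnion id).card ≤ m) : False := by
  set N := G.biUnion id with hN
  have hdisj : ∀ M ∈ F \ G, Disjoint N M := by
    intro M hM
    rw [mem_sdiff] at hM
    rw [hN, disjoint_biUnion_left]
    intro K hK
    exact hF.disj K (hG hK) M hM.1 (fun h => hM.2 (h ▸ hK))
  have hvalid : Valid m A (insert N (F \ G)) := by
    refine ⟨?_, ?_, ?_⟩
    · intro M hM
      rcases mem_insert.1 hM with rfl | hM
      · refine ⟨?_, ?_, hd, hm⟩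
        · obtain ⟨K, hK⟩ : G.Nonempty := card_pos.1 (by omega)
          obtain ⟨x, hx⟩ := (hF.good K (hG hK)).1
          exact ⟨x, mem_biUnion.2 ⟨K, hK, hx⟩⟩
        · intro x hx
          obtain ⟨K, hK, hx⟩ := mem_biUnion.1 hx
          exact (hF.good K (hG hK)).2.1 hx
      · exact hF.good M (mem_sdiff.1 hM).1
    · intro M hM M' hM' hne
      rcases mem_insert.1 hM with rfl | h1 <;> rcases mem_insert.1 hM' with rfl | h2
      · exact absurd rfl hne
      · exact hdisj M' h2
      · exact (hdisj M h1).symm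
      · exact hF.disj M (mem_sdiff.1 h1).1 M' (mem_sdiff.1 h2).1 hne
    · intro x hx
      obtain ⟨M, hM, hxM⟩ := hF.cover x hx
      by_cases h : M ∈ G
      · exact ⟨N, mem_insert_self _ _, mem_biUnion.2 ⟨M, h, hxM⟩⟩
      · exact ⟨M, mem_insert_of_mem (mem_sdiff.2 ⟨hM, h⟩), hxM⟩
  have h3 := hmin _ hvalid
  have h4 : (insert N (F \ G)).card ≤ (F \ G).card + 1 := card_insert_le _ _
  have h5 : (F \ G).card = F.card - G.card := card_sdiff_of_subset hG
  have h6 := card_le_card hG
  omega

lemma exists_separated {m : ℕ} (hm : 1 ≤ m) {A : Finset (V n d)}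
    (hA : ∀ K ⊆ A, 2 * (free K).card + 2 ≤ 3 * K.card → K.card ≤ 2 * m → K.card ≤ m) :
    ∃ F, Valid m A F ∧ (∀ K ∈ F, ∀ L ∈ F, K ≠ L → ∀ a ∈ cube K, ∀ b ∈ cube L,
      1 < hammingDist a b) ∧
      ∀ K ∈ F, ∀ L ∈ F, ∀ M ∈ F, K ≠ L → K ≠ M → L ≠ M → ∀ v, ∀ a ∈ cube K, ∀ b ∈ cube L,
        ∀ c ∈ cube M, hammingDist v a = 1 → hammingDist v b = 1 → hammingDist v c = 1 → False := by
  classical
  obtain ⟨F, hF, hmin⟩ := exists_min_image (univ.filter fun F => Valid m A F) (fun F => F.card)
    (by
      obtain ⟨F, hF⟩ := exists_valid hm A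
      exact ⟨F, by simp [hF]⟩)
  rw [mem_filter] at hF
  have hmin' : ∀ F', Valid m A F' → F.card ≤ F'.card := fun F' h => hmin F' (by simp [h])
  refine ⟨F, hF.2, ?_, ?_⟩
  · intro K hK L hL hne a ha b hb
    by_contra hcon
    rw [not_lt] at hcon
    obtain ⟨hKn, hKA, hKd, hK4⟩ := hF.2.good K hK
    obtain ⟨hLn, hLA, hLd, hL4⟩ := hF.2.good L hL
    have hcard : (K ∪ L).card = K.card + L.card :=
      card_union_of_disjoint (hF.2.disj K hK L hL hne)
    have hdim := dim_union ha hb
    have hU : ({K, L} : Finset (Finset (V n d))).biUnion id = K ∪ L := by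
      rw [biUnion_insert, singleton_biUnion]; rfl
    have hd : 2 * (free (K ∪ L)).card + 3 ≤ 3 * (K ∪ L).card := by omega
    refine no_merge hF.2 hmin' (G := {K, L}) ?_ ?_ ?_ ?_
    · intro x hx
      rw [mem_insert, mem_singleton] at hx
      rcases hx with rfl | rfl <;> assumption
    · rw [card_pair hne]
    · rw [hU]; exact hd
    · rw [hU]; exact hA _ (union_subset hKA hLA) (by omega) (by omega)
  · intro K hK L hL M hM h1 h2 h3 v a ha b hb c hc e1 e2 e3
    obtain ⟨hKn, hKA, hKd, hK4⟩ := hF.2.good K hK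
    obtain ⟨hLn, hLA, hLd, hL4⟩ := hF.2.good L hL
    obtain ⟨hMn, hMA, hMd, hM4⟩ := hF.2.good M hM
    have hcard : (K ∪ L ∪ M).card = K.card + L.card + M.card := by
      rw [card_union_of_disjoint, card_union_of_disjoint (hF.2.disj K hK L hL h1)]
      rw [disjoint_union_left]
      exact ⟨hF.2.disj K hK M hM h2, hF.2.disj L hL M hM h3⟩
    have hdim := dim_union3 (v := v) ha hb hc
    rw [e1, e2, e3] at hdim
    have hcard2 : (K ∪ L).card = K.card + L.card :=
      card_union_of_disjoint (hF.2.disj K hK L hL h1)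
    have hKL : (K ∪ L).card ≤ m := by
      have h4 := dim_union ha hb
      have h5 := hammingDist_triangle_left a b v
      exact hA _ (union_subset hKA hLA) (by omega) (by omega)
    have hU : ({K, L, M} : Finset (Finset (V n d))).biUnion id = K ∪ L ∪ M := by
      rw [biUnion_insert, biUnion_insert, singleton_biUnion, union_assoc]; rfl
    have hd : 2 * (free (K ∪ L ∪ M)).card + 3 ≤ 3 * (K ∪ L ∪ M).card := by omega
    refine no_merge hF.2 hmin' (G := {K, L, M}) ?_ ?_ ?_ ?_
    · intro x hx
      rw [mem_insert, mem_insert, mem_singleton] at hx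
      rcases hx with rfl | rfl | rfl <;> assumption
    · rw [card_eq_three.2 ⟨K, L, M, h1, h2, h3, rfl⟩]; norm_num
    · rw [hU]; exact hd
    · rw [hU]; exact hA _ (union_subset (union_subset hKA hLA) hMA) (by omega) (by omega)

/-- A locally sparse initial configuration does not fill the torus. -/
theorem not_full {m : ℕ} (hm : 1 ≤ m) (hn : 2 ≤ n) (hd : 3 * m < 2 * d + 3) {ω : V n d → Bool}
    (hω : ∀ K : Finset (V n d), (∀ x ∈ K, ω x = true) → 2 * (free K).card + 2 ≤ 3 * K.card →
      K.card ≤ 2 * m → K.card ≤ m) :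
    ∃ v, ¬ FinalOpen 3 ω v := by
  classical
  obtain ⟨F, hF, hsep, htri⟩ := exists_separated hm (A := univ.filter fun x => ω x = true)
    (fun K hK => hω K fun x hx => (mem_filter.1 (hK hx)).2)
  set U : Set (V n d) := {v | ∃ K ∈ F, v ∈ cube K} with hU
  have hsub : ∀ v, FinalOpen 3 ω v → v ∈ U := by
    intro v hv
    refine final_subset ?_ ?_ hv
    · intro x hx
      obtain ⟨K, hK, hxK⟩ := hF.cover x (by simp [hx])
      exact ⟨K, hK, subset_cube hxK⟩
    · rintro x a b c hab hac hbc ha hb hc ⟨K, hK, haK⟩ ⟨L, hL, hbL⟩ ⟨M, hM, hcM⟩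
      by_cases hKL : K = L
      · subst hKL
        exact ⟨K, hK, cube_closed hab ha hb haK hbL⟩
      · by_cases hKM : K = M
        · subst hKM
          exact ⟨K, hK, cube_closed hac ha hc haK hcM⟩
        · by_cases hLM : L = M
          · subst hLM
            exact ⟨L, hL, cube_closed hbc hb hc hbL hcM⟩
          · exact (htri K hK L hL M hM hKL hKM hLM x a haK b hbL c hcM ha hb hc).elim
  rcases F.eq_empty_or_nonempty with hE | ⟨K, hK⟩
  · by_cases hd0 : d = 0
    · refine ⟨fun _ => ⟨0, by omega⟩, fun hv => ?_⟩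
      obtain ⟨K, hK, _⟩ := hsub _ hv
      rw [hE] at hK
      exact absurd hK (notMem_empty _)
    · refine ⟨fun _ => ⟨0, by omega⟩, fun hv => ?_⟩
      obtain ⟨K, hK, _⟩ := hsub _ hv
      rw [hE] at hK
      exact absurd hK (notMem_empty _)
  · obtain ⟨⟨x, hx⟩, _, hdim, hK4⟩ := hF.good K hK
    obtain ⟨k, hk⟩ : ∃ k : Fin d, k ∉ free K := by
      by_contra hcon
      push Not at hcon
      have : (free K).card = d := by
        rw [eq_univ_of_forall hcon, card_univ, Fintype.card_fin]
      omega
    have : Nontrivial (Fin n) := Fin.nontrivial_iff_two_le.2 hn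
    obtain ⟨y, hy⟩ := exists_ne (x k)
    refine ⟨Function.update x k y, fun hv => ?_⟩
    obtain ⟨L, hL, hvL⟩ := hsub _ hv
    by_cases hKL : K = L
    · subst hKL
      have := hvL k hk x hx
      rw [Function.update_self] at this
      exact hy this
    · have h1 := hsep K hK L hL hKL x (subset_cube hx) _ hvL
      have h2 : hammingDist x (Function.update x k y) ≤ 1 := by
        unfold hammingDist
        rw [card_le_one]
        intro a ha b hb
        rw [mem_filter] at ha hb
        have ea : a = k := by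
          by_contra h; exact ha.2 (by rw [Function.update_of_ne h])
        have eb : b = k := by
          by_contra h; exact hb.2 (by rw [Function.update_of_ne h])
        rw [ea, eb]
      omega

end Pool.Agent.KS6_54.HT
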