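import Mathlib
import Pool.Agent.KS6_54.HT.HamA

/-!
Bootstrap percolation on Hamming tori: planes opened by four vertices, and probability bounds.
-/

set_option autoImplicit false

open Finset MeasureTheory ProbabilityTheory
open scoped ENNReal

namespace Pool.Agent.KS6_54.HT

/-- The Bernoulli law on `Bool` giving mass `p` to `true`. -/
noncomputable def siteLaw (p : ℝ) : Measure Bool :=
  ENNReal.ofReal p • Measure.dirac true + ENNReal.ofReal (1 - p) • Measure.dirac false

/-- The law of independent Bernoulli variables with parameter `p`. -/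
noncomputable def law (n d : ℕ) (p : ℝ) : Measure (V n d → Bool) :=
  Measure.pi fun _ => siteLaw p

/-- `p` is a critical value `p_c(i, d)`: the probability that some `i`-dimensional subgraph is
finally open equals one half. -/
def IsCritical (n d θ i : ℕ) (p : ℝ) : Prop :=
  0 ≤ p ∧ p ≤ 1 ∧ law n d p {ω | SubgraphOpen θ i ω} = 1 / 2

variable {n d : ℕ}

section plane

/-- a point of the plane through `b` in the directions `k0`, `k1` -/
def pt (b : V n d) (k0 k1 : Fin d) (r c : Fin n) : V n d :=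
  Function.update (Function.update b k0 r) k1 c

variable {b : V n d} {k0 k1 : Fin d}

lemma dist_update (b : V n d) (k : Fin d) {x y : Fin n} (h : x ≠ y) :
    hammingDist (Function.update b k x) (Function.update b k y) = 1 := by
  unfold hammingDist
  rw [card_eq_one]
  refine ⟨k, ?_⟩
  ext i
  rw [mem_filter, mem_singleton]
  constructor
  · rintro ⟨_, hi⟩
    by_contra hne
    exact hi (by rw [Function.update_of_ne hne, Function.update_of_ne hne])
  · rintro rfl
    exact ⟨mem_univ _, by rw [Function.update_self, Function.update_self]; exact h⟩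

lemma dist_col {r c c' : Fin n} (h : c ≠ c') :
    hammingDist (pt b k0 k1 r c) (pt b k0 k1 r c') = 1 := dist_update _ _ h

lemma dist_row (hk : k0 ≠ k1) {r r' c : Fin n} (h : r ≠ r') :
    hammingDist (pt b k0 k1 r c) (pt b k0 k1 r' c) = 1 := by
  unfold pt
  rw [Function.update_comm hk, Function.update_comm hk]
  exact dist_update _ _ h

lemma pt_ne_col {r r' c c' : Fin n} (h : c ≠ c') : pt b k0 k1 r c ≠ pt b k0 k1 r' c' := by
  intro he
  have := congrFun he k1
  simp only [pt, Function.update_self] at this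
  exact h this

lemma pt_ne_row (hk : k0 ≠ k1) {r r' c c' : Fin n} (h : r ≠ r') :
    pt b k0 k1 r c ≠ pt b k0 k1 r' c' := by
  intro he
  have := congrFun he k0
  simp only [pt, Function.update_of_ne hk, Function.update_self] at this
  exact h this

theorem plane_open (hk : k0 ≠ k1) {ω : V n d → Bool} {r0 r1 r2 c0 c1 c2 c3 : Fin n}
    (hr01 : r0 ≠ r1) (hr02 : r0 ≠ r2) (hr12 : r1 ≠ r2) (hc01 : c0 ≠ c1) (hc02 : c0 ≠ c2)
    (hc12 : c1 ≠ c2) (hc23 : c2 ≠ c3)
    (h1 : FinalOpen 3 ω (pt b k0 k1 r0 c0)) (h2 : FinalOpen 3 ω (pt b k0 k1 r0 c1))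
    (h3 : FinalOpen 3 ω (pt b k0 k1 r1 c2)) (h4 : FinalOpen 3 ω (pt b k0 k1 r2 c3))
    (r c : Fin n) : FinalOpen 3 ω (pt b k0 k1 r c) := by
  -- row r0
  have h5 : FinalOpen 3 ω (pt b k0 k1 r0 c2) :=
    final_of_three (pt_ne_col hc01) (pt_ne_row hk hr01) (pt_ne_row hk hr01)
      (dist_col hc02.symm) (dist_col hc12.symm) (dist_row hk hr01) h1 h2 h3
  have row0 : ∀ c, FinalOpen 3 ω (pt b k0 k1 r0 c) := by
    intro c
    by_cases e0 : c = c0
    · rw [e0]; exact h1
    by_cases e1 : c = c1
    · rw [e1]; exact h2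
    by_cases e2 : c = c2
    · rw [e2]; exact h5
    exact final_of_three (pt_ne_col hc01) (pt_ne_col hc02) (pt_ne_col hc12)
      (dist_col e0) (dist_col e1) (dist_col e2) h1 h2 h5
  have h6 : FinalOpen 3 ω (pt b k0 k1 r1 c3) :=
    final_of_three (pt_ne_row hk hr01) (pt_ne_row hk hr02) (pt_ne_row hk hr12)
      (dist_row hk hr01.symm) (dist_col hc23.symm) (dist_row hk hr12) (row0 c3) h3 h4
  have row1 : ∀ c, FinalOpen 3 ω (pt b k0 k1 r1 c) := by
    intro c
    by_cases e2 : c = c2
    · rw [e2]; exact h3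
    by_cases e3 : c = c3
    · rw [e3]; exact h6
    exact final_of_three (pt_ne_row hk hr01) (pt_ne_row hk hr01) (pt_ne_col hc23)
      (dist_row hk hr01.symm) (dist_col e2) (dist_col e3) (row0 c) h3 h6
  have row2 : ∀ c, FinalOpen 3 ω (pt b k0 k1 r2 c) := by
    intro c
    by_cases e3 : c = c3
    · rw [e3]; exact h4
    exact final_of_three (pt_ne_row hk hr01) (pt_ne_row hk hr02) (pt_ne_row hk hr12)
      (dist_row hk hr02.symm) (dist_row hk hr12.symm) (dist_col e3) (row0 c) (row1 c) h4
  by_cases e0 : r = r0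
  · rw [e0]; exact row0 c
  by_cases e1 : r = r1
  · rw [e1]; exact row1 c
  by_cases e2 : r = r2
  · rw [e2]; exact row2 c
  exact final_of_three (pt_ne_row hk hr01) (pt_ne_row hk hr02) (pt_ne_row hk hr12)
    (dist_row hk e0) (dist_row hk e1) (dist_row hk e2) (row0 c) (row1 c) (row2 c)

lemma eq_pt {x : V n d} (hx : ∀ k, k ∉ ({k0, k1} : Finset (Fin d)) → x k = b k) :
    x = pt b k0 k1 (x k0) (x k1) := by
  funext k
  unfold pt
  by_cases e1 : k = k1
  · rw [e1, Function.update_self]
  rw [Function.update_of_ne e1]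
  by_cases e0 : k = k0
  · rw [e0, Function.update_self]
  rw [Function.update_of_ne e0]
  exact hx k (by simp [e0, e1])

end plane

section prob

lemma siteLaw_true {p : ℝ} : siteLaw p {true} = ENNReal.ofReal p := by
  simp [siteLaw]

lemma siteLaw_false {p : ℝ} : siteLaw p {false} = ENNReal.ofReal (1 - p) := by
  simp [siteLaw]

lemma siteLaw_prob {p : ℝ} (h0 : 0 ≤ p) (h1 : p ≤ 1) : IsProbabilityMeasure (siteLaw p) := by
  refine ⟨?_⟩
  simp only [siteLaw, Measure.coe_add, Measure.coe_smul, Pi.add_apply, Pi.smul_apply,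
    measure_univ, smul_eq_mul, mul_one]
  rw [← ENNReal.ofReal_add h0 (by linarith)]
  simp

/-- `f` depends only on the sites in `S` -/
def Dep {ι α : Type*} (S : Finset ι) (f : (ι → Bool) → α) : Prop :=
  ∀ ω ω' : ι → Bool, (∀ e ∈ S, ω e = ω' e) → f ω = f ω'

lemma Dep.exists_factor {ι α : Type*} {S : Finset ι} {f : (ι → Bool) → α} (hf : Dep S f) :
    ∃ g : (S → Bool) → α, f = fun ω => g (S.restrict ω) := by
  classical
  refine ⟨fun z => f (fun e => if h : e ∈ S then z ⟨e, h⟩ else true), ?_⟩
  funext ω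
  apply hf
  intro e he
  simp [he]

lemma Dep.indep {ι α β : Type*} [Fintype ι] [MeasurableSpace α] [MeasurableSpace β]
    {m : ι → Measure Bool} [∀ i, IsProbabilityMeasure (m i)] {S T : Finset ι}
    (hST : Disjoint S T) {f : (ι → Bool) → α} {g : (ι → Bool) → β} (hf : Dep S f) (hg : Dep T g) :
    IndepFun f g (Measure.pi m) := by
  obtain ⟨f', rfl⟩ := hf.exists_factor
  obtain ⟨g', rfl⟩ := hg.exists_factor
  have h := iIndepFun_pi (μ := m) (X := fun _ ω => ω) (fun _ => aemeasurable_id)
  have h2 := h.indepFun_finset S T hST (fun i => measurable_pi_apply i)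
  exact h2.comp (measurable_of_countable f') (measurable_of_countable g')

variable {p : ℝ}

lemma law_all (h0 : 0 ≤ p) (h1 : p ≤ 1) (K : Finset (V n d)) :
    law n d p {ω | ∀ x ∈ K, ω x = true} = ENNReal.ofReal p ^ K.card := by
  classical
  have := siteLaw_prob h0 h1
  have e : {ω : V n d → Bool | ∀ x ∈ K, ω x = true} =
      Set.pi Set.univ (fun x => if x ∈ K then {true} else Set.univ) := by
    ext ω
    simp only [Set.mem_ofPred_eq, Set.mem_pi, Set.mem_univ, true_implies]
    refine forall_congr' fun x => ?_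
    by_cases hx : x ∈ K <;> simp [hx]
  rw [law, e, Measure.pi_pi]
  have h2 : ∀ x : V n d, siteLaw p (if x ∈ K then {true} else Set.univ) =
      if x ∈ K then ENNReal.ofReal p else 1 := by
    intro x
    split_ifs
    · exact siteLaw_true
    · exact measure_univ
  simp_rw [h2]
  rw [prod_ite_mem]
  simp

/-- independence of disjoint groups -/
lemma law_none (h0 : 0 ≤ p) (h1 : p ≤ 1) {T : Finset (V n d)} {K : V n d → Finset (V n d)} {m : ℕ}
    (hK : ∀ b ∈ T, (K b).card = m) (hdisj : ∀ b ∈ T, ∀ b' ∈ T, b ≠ b' → Disjoint (K b) (K b')) :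
    law n d p {ω | ∀ b ∈ T, ¬ ∀ x ∈ K b, ω x = true} = (1 - ENNReal.ofReal p ^ m) ^ T.card := by
  classical
  have := siteLaw_prob h0 h1
  have hprob : IsProbabilityMeasure (law n d p) := by unfold law; infer_instance
  induction T using Finset.induction_on with
  | empty => simp
  | insert b T hb ih =>
    have ih' := ih (fun b hb => hK b (mem_insert_of_mem hb))
      (fun b hb b' hb' => hdisj b (mem_insert_of_mem hb) b' (mem_insert_of_mem hb'))
    have d1 : Dep (K b) (fun ω : V n d → Bool => ¬ ∀ x ∈ K b, ω x = true) := by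
      intro ω ω' h
      rw [eq_iff_iff]
      exact not_congr (forall₂_congr fun x hx => by rw [h x hx])
    have d2 : Dep (T.biUnion K) (fun ω : V n d → Bool => ∀ b ∈ T, ¬ ∀ x ∈ K b, ω x = true) := by
      intro ω ω' h
      rw [eq_iff_iff]
      refine forall₂_congr fun b hb => not_congr (forall₂_congr fun x hx => ?_)
      rw [h x (mem_biUnion.2 ⟨b, hb, hx⟩)]
    have hdis : Disjoint (K b) (T.biUnion K) := by
      rw [disjoint_biUnion_right]
      intro b' hb'
      exact hdisj b (mem_insert_self _ _) b' (mem_insert_of_mem hb') (fun h => hb (h ▸ hb'))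
    have hind : IndepFun (fun ω : V n d → Bool => ¬ ∀ x ∈ K b, ω x = true)
        (fun ω : V n d → Bool => ∀ b ∈ T, ¬ ∀ x ∈ K b, ω x = true) (law n d p) :=
      Dep.indep (m := fun _ => siteLaw p) hdis d1 d2
    rw [indepFun_iff_measure_inter_preimage_eq_mul] at hind
    have h3 := hind {True} {True} (measurableSet_singleton _) (measurableSet_singleton _)
    have e1 : (fun ω : V n d → Bool => ¬ ∀ x ∈ K b, ω x = true) ⁻¹' {True} =
        {ω | ∀ x ∈ K b, ω x = true}ᶜ := by
      ext ω; simp
    have e2 : (fun ω : V n d → Bool => ∀ b ∈ T, ¬ ∀ x ∈ K b, ω x = true) ⁻¹' {True} =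
        {ω | ∀ b ∈ T, ¬ ∀ x ∈ K b, ω x = true} := by
      ext ω; simp
    have e3 : {ω : V n d → Bool | ∀ b' ∈ insert b T, ¬ ∀ x ∈ K b', ω x = true} =
        (fun ω : V n d → Bool => ¬ ∀ x ∈ K b, ω x = true) ⁻¹' {True} ∩
        (fun ω : V n d → Bool => ∀ b ∈ T, ¬ ∀ x ∈ K b, ω x = true) ⁻¹' {True} := by
      ext ω; simp
    rw [e3, h3, e1, e2, ih', prob_compl_eq_one_sub (Set.toFinite _).measurableSet,
      law_all h0 h1, hK b (mem_insert_self _ _), card_insert_of_notMem hb, pow_succ, mul_comm]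

end prob

end Pool.Agent.KS6_54.HT
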