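import Mathlib
import Pool.Agent.KS6_54.HT.HamC

/-!
Bootstrap percolation on Hamming tori: the sharp exponent of the first opened plane.
-/

set_option autoImplicit false

open Finset MeasureTheory ProbabilityTheory
open scoped ENNReal

namespace Pool.Agent.KS6_54.HT

variable {n d : ℕ} {p : ℝ}

/-- independence of events on disjoint groups of sites -/
lemma law_none' (h0 : 0 ≤ p) (h1 : p ≤ 1) {T : Finset (V n d)} {S : V n d → Finset (V n d)}
    {Ev : V n d → (V n d → Bool) → Prop} {π : ℝ≥0∞}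
    (hdep : ∀ b ∈ T, Dep (S b) (Ev b))
    (hdisj : ∀ b ∈ T, ∀ b' ∈ T, b ≠ b' → Disjoint (S b) (S b'))
    (hπ : ∀ b ∈ T, π ≤ law n d p {ω | Ev b ω}) :
    law n d p {ω | ∀ b ∈ T, ¬ Ev b ω} ≤ (1 - π) ^ T.card := by
  classical
  have := siteLaw_prob h0 h1
  have hprob : IsProbabilityMeasure (law n d p) := by unfold law; infer_instance
  induction T using Finset.induction_on with
  | empty => simp
  | insert b T hb ih =>
    have ih' := ih (fun b hb => hdep b (mem_insert_of_mem hb))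
      (fun b hb b' hb' => hdisj b (mem_insert_of_mem hb) b' (mem_insert_of_mem hb'))
      (fun b hb => hπ b (mem_insert_of_mem hb))
    have d1 : Dep (S b) (fun ω : V n d → Bool => ¬ Ev b ω) := by
      intro ω ω' h
      show (¬ Ev b ω) = (¬ Ev b ω')
      rw [hdep b (mem_insert_self _ _) ω ω' h]
    have d2 : Dep (T.biUnion S) (fun ω : V n d → Bool => ∀ b ∈ T, ¬ Ev b ω) := by
      intro ω ω' h
      rw [eq_iff_iff]
      refine forall₂_congr fun b hb => not_congr ?_
      rw [hdep b (mem_insert_of_mem hb) ω ω' (fun x hx => h x (mem_biUnion.2 ⟨b, hb, hx⟩))]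
    have hdis : Disjoint (S b) (T.biUnion S) := by
      rw [disjoint_biUnion_right]
      intro b' hb'
      exact hdisj b (mem_insert_self _ _) b' (mem_insert_of_mem hb') (fun h => hb (h ▸ hb'))
    have hind : IndepFun (fun ω : V n d → Bool => ¬ Ev b ω)
        (fun ω : V n d → Bool => ∀ b ∈ T, ¬ Ev b ω) (law n d p) :=
      Dep.indep (m := fun _ => siteLaw p) hdis d1 d2
    rw [indepFun_iff_measure_inter_preimage_eq_mul] at hind
    have h3 := hind {True} {True} (measurableSet_singleton _) (measurableSet_singleton _)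
    have e1 : (fun ω : V n d → Bool => ¬ Ev b ω) ⁻¹' {True} = {ω | Ev b ω}ᶜ := by
      ext ω; simp
    have e2 : (fun ω : V n d → Bool => ∀ b ∈ T, ¬ Ev b ω) ⁻¹' {True} =
        {ω | ∀ b ∈ T, ¬ Ev b ω} := by
      ext ω; simp
    have e3 : {ω : V n d → Bool | ∀ b' ∈ insert b T, ¬ Ev b' ω} =
        (fun ω : V n d → Bool => ¬ Ev b ω) ⁻¹' {True} ∩
        (fun ω : V n d → Bool => ∀ b ∈ T, ¬ Ev b ω) ⁻¹' {True} := by
      ext ω; simp
    rw [e3, h3, e1, e2, prob_compl_eq_one_sub (Set.toFinite _).measurableSet,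
      card_insert_of_notMem hb, pow_succ, mul_comm]
    exact mul_le_mul' ih' (tsub_le_tsub_left (hπ b (mem_insert_self _ _)) 1)

lemma law_cyl (h0 : 0 ≤ p) (h1 : p ≤ 1) {S K : Finset (V n d)} (hKS : K ⊆ S) :
    law n d p {ω | ∀ x ∈ S, (ω x = true ↔ x ∈ K)} =
      ENNReal.ofReal p ^ K.card * ENNReal.ofReal (1 - p) ^ (S.card - K.card) := by
  classical
  have := siteLaw_prob h0 h1
  have e : {ω : V n d → Bool | ∀ x ∈ S, (ω x = true ↔ x ∈ K)} =
      Set.pi Set.univ (fun x => if x ∈ S then (if x ∈ K then {true} else {false})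
        else Set.univ) := by
    ext ω
    simp only [Set.mem_ofPred_eq, Set.mem_pi, Set.mem_univ, true_implies]
    refine forall_congr' fun x => ?_
    by_cases hx : x ∈ S <;> by_cases hx2 : x ∈ K <;> simp [hx, hx2]
  rw [law, e, Measure.pi_pi]
  have h2 : ∀ x : V n d, siteLaw p (if x ∈ S then (if x ∈ K then {true} else {false})
        else Set.univ) =
      if x ∈ S then (if x ∈ K then ENNReal.ofReal p else ENNReal.ofReal (1 - p)) else 1 := by
    intro x
    split_ifs
    · exact siteLaw_true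
    · exact siteLaw_false
    · exact measure_univ
  simp_rw [h2]
  rw [prod_ite_mem, univ_inter, prod_ite, prod_const, prod_const]
  have h3 : S.filter (fun x => x ∈ K) = K := by
    ext x
    simp only [mem_filter]
    exact ⟨fun h => h.2, fun h => ⟨hKS h, h⟩⟩
  have h4 : (S.filter (fun x => x ∉ K)).card = S.card - K.card := by
    rw [← sdiff_eq_filter, card_sdiff_of_subset hKS]
  rw [h3, h4]

/-- the `t`-th element of the `j`-th block -/
def blk (hn : 0 < n) (m₀ j : ℕ) (t : Fin m₀) : Fin n := ⟨(j * m₀ + t) % n, Nat.mod_lt _ hn⟩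

lemma blk_val {hn : 0 < n} {m₀ j : ℕ} (hm : 4 * m₀ ≤ n) (hj : j < 4) (t : Fin m₀) :
    (blk hn m₀ j t : ℕ) = j * m₀ + t := by
  have ht := t.isLt
  have : j * m₀ + t < n := by
    have : j * m₀ ≤ 3 * m₀ := Nat.mul_le_mul_right _ (by omega)
    omega
  simp only [blk]
  exact Nat.mod_eq_of_lt this

lemma blk_inj {hn : 0 < n} {m₀ j j' : ℕ} (hm : 4 * m₀ ≤ n) (hj : j < 4) (hj' : j' < 4)
    {t t' : Fin m₀} (h : blk hn m₀ j t = blk hn m₀ j' t') : j = j' ∧ t = t' := by
  have h1 := congrArg Fin.val h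
  rw [blk_val hm hj, blk_val hm hj'] at h1
  have ht := t.isLt
  have ht' := t'.isLt
  have hjj : j = j' := by
    rcases lt_trichotomy j j' with h2 | h2 | h2
    · have : (j + 1) * m₀ ≤ j' * m₀ := Nat.mul_le_mul_right _ h2
      rw [add_mul, one_mul] at this
      omega
    · exact h2
    · have : (j' + 1) * m₀ ≤ j * m₀ := Nat.mul_le_mul_right _ h2
      rw [add_mul, one_mul] at this
      omega
  subst hjj
  exact ⟨rfl, Fin.ext (by omega)⟩

section conf

variable (hn : 0 < n) (m₀ : ℕ) (k0 k1 : Fin d)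

/-- a set of four points which opens a plane -/
def conf (b : V n d) (c : Fin 7 → Fin m₀) : Finset (V n d) :=
  {pt b k0 k1 (blk hn m₀ 0 (c 0)) (blk hn m₀ 0 (c 3)),
    pt b k0 k1 (blk hn m₀ 0 (c 0)) (blk hn m₀ 1 (c 4)),
    pt b k0 k1 (blk hn m₀ 1 (c 1)) (blk hn m₀ 2 (c 5)),
    pt b k0 k1 (blk hn m₀ 2 (c 2)) (blk hn m₀ 3 (c 6))}

variable {hn m₀ k0 k1}

lemma pt_inj (hk : k0 ≠ k1) {b : V n d} {r r' c c' : Fin n}
    (h : pt b k0 k1 r c = pt b k0 k1 r' c') : r = r' ∧ c = c' := by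
  constructor
  · by_contra h1
    exact pt_ne_row hk h1 h
  · by_contra h1
    exact pt_ne_col h1 h

lemma conf_card (hm : 4 * m₀ ≤ n) (b : V n d) (c : Fin 7 → Fin m₀) :
    (conf hn m₀ k0 k1 b c).card = 4 := by
  have key : ∀ i j, i < 4 → j < 4 → i ≠ j → ∀ t t' : Fin m₀, blk hn m₀ i t ≠ blk hn m₀ j t' :=
    fun i j hi hj hij t t' h => hij (blk_inj hm hi hj h).1
  unfold conf
  rw [card_insert_of_notMem, card_insert_of_notMem, card_insert_of_notMem, card_singleton]
  · rw [mem_singleton]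
    exact pt_ne_col (key 2 3 (by norm_num) (by norm_num) (by norm_num) _ _)
  · simp only [mem_insert, mem_singleton, not_or]
    exact ⟨pt_ne_col (key 1 2 (by norm_num) (by norm_num) (by norm_num) _ _),
      pt_ne_col (key 1 3 (by norm_num) (by norm_num) (by norm_num) _ _)⟩
  · simp only [mem_insert, mem_singleton, not_or]
    exact ⟨pt_ne_col (key 0 1 (by norm_num) (by norm_num) (by norm_num) _ _),
      pt_ne_col (key 0 2 (by norm_num) (by norm_num) (by norm_num) _ _),
      pt_ne_col (key 0 3 (by norm_num) (by norm_num) (by norm_num) _ _)⟩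

lemma conf_inj (hk : k0 ≠ k1) (hm : 4 * m₀ ≤ n) (b : V n d) {c c' : Fin 7 → Fin m₀}
    (h : conf hn m₀ k0 k1 b c = conf hn m₀ k0 k1 b c') : c = c' := by
  have key : ∀ i j, i < 4 → j < 4 → i ≠ j → ∀ t t' : Fin m₀, blk hn m₀ i t ≠ blk hn m₀ j t' :=
    fun i j hi hj hij t t' h => hij (blk_inj hm hi hj h).1
  have e1 : pt b k0 k1 (blk hn m₀ 0 (c 0)) (blk hn m₀ 0 (c 3)) ∈ conf hn m₀ k0 k1 b c' := by
    rw [← h]; simp [conf]
  have e2 : pt b k0 k1 (blk hn m₀ 0 (c 0)) (blk hn m₀ 1 (c 4)) ∈ conf hn m₀ k0 k1 b c' := by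
    rw [← h]; simp [conf]
  have e3 : pt b k0 k1 (blk hn m₀ 1 (c 1)) (blk hn m₀ 2 (c 5)) ∈ conf hn m₀ k0 k1 b c' := by
    rw [← h]; simp [conf]
  have e4 : pt b k0 k1 (blk hn m₀ 2 (c 2)) (blk hn m₀ 3 (c 6)) ∈ conf hn m₀ k0 k1 b c' := by
    rw [← h]; simp [conf]
  simp only [conf, mem_insert, mem_singleton] at e1 e2 e3 e4
  have hj : ∀ (i j : ℕ) (t t' : Fin m₀) (i' j' : ℕ) (s s' : Fin m₀), i < 4 → j < 4 → i' < 4 →
      j' < 4 → pt b k0 k1 (blk hn m₀ i t) (blk hn m₀ j t') =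
        pt b k0 k1 (blk hn m₀ i' s) (blk hn m₀ j' s') → j = j' ∧ t' = s' ∧ (i = i' ∧ t = s) := by
    intro i j t t' i' j' s s' h1 h2 h3 h4 he
    have h5 := pt_inj hk he
    have h6 := blk_inj hm h2 h4 h5.2
    exact ⟨h6.1, h6.2, blk_inj hm h1 h3 h5.1⟩
  have f1 : c 0 = c' 0 ∧ c 3 = c' 3 := by
    rcases e1 with h1 | h1 | h1 | h1 <;>
      have h2 := hj _ _ _ _ _ _ _ _ (by norm_num) (by norm_num) (by norm_num) (by norm_num) h1
    · exact ⟨h2.2.2.2, h2.2.1⟩
    · exact absurd h2.1 (by norm_num)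
    · exact absurd h2.1 (by norm_num)
    · exact absurd h2.1 (by norm_num)
  have f2 : c 4 = c' 4 := by
    rcases e2 with h1 | h1 | h1 | h1 <;>
      have h2 := hj _ _ _ _ _ _ _ _ (by norm_num) (by norm_num) (by norm_num) (by norm_num) h1
    · exact absurd h2.1 (by norm_num)
    · exact h2.2.1
    · exact absurd h2.1 (by norm_num)
    · exact absurd h2.1 (by norm_num)
  have f3 : c 1 = c' 1 ∧ c 5 = c' 5 := by
    rcases e3 with h1 | h1 | h1 | h1 <;>
      have h2 := hj _ _ _ _ _ _ _ _ (by norm_num) (by norm_num) (by norm_num) (by norm_num) h1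
    · exact absurd h2.1 (by norm_num)
    · exact absurd h2.1 (by norm_num)
    · exact ⟨h2.2.2.2, h2.2.1⟩
    · exact absurd h2.1 (by norm_num)
  have f4 : c 2 = c' 2 ∧ c 6 = c' 6 := by
    rcases e4 with h1 | h1 | h1 | h1 <;>
      have h2 := hj _ _ _ _ _ _ _ _ (by norm_num) (by norm_num) (by norm_num) (by norm_num) h1
    · exact absurd h2.1 (by norm_num)
    · exact absurd h2.1 (by norm_num)
    · exact absurd h2.1 (by norm_num)
    · exact ⟨h2.2.2.2, h2.2.1⟩
  funext i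
  fin_cases i
  · exact f1.1
  · exact f3.1
  · exact f4.1
  · exact f1.2
  · exact f2
  · exact f3.2
  · exact f4.2

lemma pt_mem (b : V n d) (r c : Fin n) : pt b k0 k1 r c ∈ cubeF {k0, k1} b := by
  unfold cubeF
  rw [Fintype.mem_piFinset]
  intro k
  split_ifs with hk
  · exact mem_univ _
  · rw [mem_singleton]
    simp only [mem_insert, mem_singleton, not_or] at hk
    simp only [pt, Function.update_of_ne hk.1, Function.update_of_ne hk.2]

lemma conf_sub (b : V n d) (c : Fin 7 → Fin m₀) :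
    conf hn m₀ k0 k1 b c ⊆ cubeF {k0, k1} b := by
  intro x hx
  simp only [conf, mem_insert, mem_singleton] at hx
  rcases hx with rfl | rfl | rfl | rfl <;> exact pt_mem _ _ _

end conf

theorem upper_bound' (hd : 2 ≤ d) (hn : 0 < n) {m₀ : ℕ} (hm : 4 * m₀ ≤ n) (h0 : 0 ≤ p)
    (h1 : p ≤ 1) :
    law n d p {ω | ¬ SubgraphOpen 3 2 ω} ≤
      (1 - (m₀ ^ 7 : ℕ) * (ENNReal.ofReal p ^ 4 * ENNReal.ofReal (1 - p) ^ (n ^ 2 - 4))) ^
        (n ^ (d - 2)) := by
  classical
  set k0 : Fin d := ⟨0, by omega⟩ with hk0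
  set k1 : Fin d := ⟨1, by omega⟩ with hk1
  have hk : k0 ≠ k1 := by simp [hk0, hk1]
  set z : Fin n := ⟨0, hn⟩ with hz
  set Ev : V n d → (V n d → Bool) → Prop := fun b ω =>
    ∃ c : Fin 7 → Fin m₀, ∀ x ∈ conf hn m₀ k0 k1 b c, ω x = true with hEv
  have hdep : ∀ b ∈ base k0 k1 z, Dep (cubeF {k0, k1} b) (Ev b) := by
    intro b _ ω ω' h
    rw [hEv, eq_iff_iff]
    exact exists_congr fun c => forall₂_congr fun x hx => by rw [h x (conf_sub b c hx)]
  have hdisj : ∀ b ∈ base k0 k1 z, ∀ b' ∈ base k0 k1 z, b ≠ b' →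
      Disjoint (cubeF {k0, k1} b) (cubeF {k0, k1} b') := by
    intro b hb b' hb' hne
    rw [disjoint_left]
    intro x hx hx'
    apply hne
    rw [mem_base] at hb hb'
    unfold cubeF at hx hx'
    rw [Fintype.mem_piFinset] at hx hx'
    funext k
    by_cases e0 : k = k0
    · rw [e0, hb.1, hb'.1]
    by_cases e1 : k = k1
    · rw [e1, hb.2, hb'.2]
    have h2 := hx k
    have h3 := hx' k
    have hk' : k ∉ ({k0, k1} : Finset (Fin d)) := by simp [e0, e1]
    rw [if_neg hk', mem_singleton] at h2 h3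
    rw [← h2, ← h3]
  have hπ : ∀ b ∈ base k0 k1 z,
      (m₀ ^ 7 : ℕ) * (ENNReal.ofReal p ^ 4 * ENNReal.ofReal (1 - p) ^ (n ^ 2 - 4)) ≤
        law n d p {ω | Ev b ω} := by
    intro b _
    have hsub : (⋃ c ∈ (univ : Finset (Fin 7 → Fin m₀)),
        {ω : V n d → Bool | ∀ x ∈ cubeF {k0, k1} b, (ω x = true ↔ x ∈ conf hn m₀ k0 k1 b c)}) ⊆
        {ω | Ev b ω} := by
      intro ω hω
      rw [Set.mem_iUnion₂] at hω
      obtain ⟨c, _, hc⟩ := hω
      exact ⟨c, fun x hx => (hc x (conf_sub b c hx)).2 hx⟩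
    refine le_trans (le_of_eq ?_) (measure_mono hsub)
    rw [measure_biUnion_finset]
    · have h2 : ∀ c ∈ (univ : Finset (Fin 7 → Fin m₀)),
          law n d p {ω : V n d → Bool | ∀ x ∈ cubeF {k0, k1} b,
            (ω x = true ↔ x ∈ conf hn m₀ k0 k1 b c)} =
          ENNReal.ofReal p ^ 4 * ENNReal.ofReal (1 - p) ^ (n ^ 2 - 4) := by
        intro c _
        rw [law_cyl h0 h1 (conf_sub b c), conf_card hm, card_cubeF, card_pair hk]
      rw [sum_congr rfl h2, sum_const, card_univ, Fintype.card_fun, Fintype.card_fin,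
        Fintype.card_fin, nsmul_eq_mul]
    · intro c _ c' _ hcc
      rw [Function.onFun, Set.disjoint_left]
      intro ω hω hω'
      apply hcc
      apply conf_inj hk hm b (hn := hn)
      ext x
      constructor
      · intro hx
        exact (hω' x (conf_sub b c hx)).1 ((hω x (conf_sub b c hx)).2 hx)
      · intro hx
        exact (hω x (conf_sub b c' hx)).1 ((hω' x (conf_sub b c' hx)).2 hx)
    · intro c _
      exact (Set.toFinite _).measurableSet
  rw [← card_base hk z]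
  refine le_trans (measure_mono ?_) (law_none' h0 h1 hdep hdisj hπ)
  intro ω hω b _ hall
  apply hω
  obtain ⟨c, hc⟩ := hall
  refine ⟨{k0, k1}, card_pair hk, b, fun x hx => ?_⟩
  rw [eq_pt hx]
  have hfo : ∀ y ∈ conf hn m₀ k0 k1 b c, FinalOpen 3 ω y := fun y hy => final_of_init (hc y hy)
  have key : ∀ i j, i < 4 → j < 4 → i ≠ j → ∀ t t' : Fin m₀, blk hn m₀ i t ≠ blk hn m₀ j t' :=
    fun i j hi hj hij t t' h => hij (blk_inj hm hi hj h).1
  exact plane_open hk (key 0 1 (by norm_num) (by norm_num) (by norm_num) (c 0) (c 1))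
    (key 0 2 (by norm_num) (by norm_num) (by norm_num) (c 0) (c 2))
    (key 1 2 (by norm_num) (by norm_num) (by norm_num) (c 1) (c 2))
    (key 0 1 (by norm_num) (by norm_num) (by norm_num) (c 3) (c 4))
    (key 0 2 (by norm_num) (by norm_num) (by norm_num) (c 3) (c 5))
    (key 1 2 (by norm_num) (by norm_num) (by norm_num) (c 4) (c 5))
    (key 2 3 (by norm_num) (by norm_num) (by norm_num) (c 5) (c 6))
    (hfo _ (by simp [conf])) (hfo _ (by simp [conf])) (hfo _ (by simp [conf]))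
    (hfo _ (by simp [conf])) _ _

end Pool.Agent.KS6_54.HT
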