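import Mathlib
import Pool.Agent.KS6_54.HT.HamD

/-!
Bootstrap percolation on Hamming tori: the gap between the critical values.
-/

set_option autoImplicit false

open Finset MeasureTheory ProbabilityTheory
open scoped ENNReal

namespace Pool.Agent.KS6_54.HT

variable {n d : ℕ}

lemma crit_two' (hd : 14 ≤ d) (hn : 8 ≤ n) {p : ℝ} (hp : IsCritical n d 3 2 p) :
    0 < p ∧ p ^ 4 * (n : ℝ) ^ (d + 5) ≤ 2 ^ 22 := by
  obtain ⟨hp0, hp1⟩ := crit_two (by omega) (by omega) hp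
  obtain ⟨h0, h1, h2⟩ := hp
  refine ⟨hp0, ?_⟩
  have hprob : IsProbabilityMeasure (law n d p) := by
    have := siteLaw_prob h0 h1
    unfold law; infer_instance
  have hnr : (8:ℝ) ≤ n := by exact_mod_cast hn
  have hn0 : (0:ℝ) < n := by linarith
  -- `p` is small
  have hpn : p * (n : ℝ) ^ 3 ≤ 1 := by
    have h3 : (p * (n : ℝ) ^ 3) ^ 4 ≤ 1 := by
      calc (p * (n : ℝ) ^ 3) ^ 4 = p ^ 4 * (n : ℝ) ^ 12 := by ring
        _ ≤ p ^ 4 * (n : ℝ) ^ (d - 2) := by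
            apply mul_le_mul_of_nonneg_left _ (by positivity)
            exact pow_le_pow_right₀ (by linarith) (by omega)
        _ ≤ 1 := hp1
    by_contra hcon
    rw [not_le] at hcon
    have := one_lt_pow₀ hcon (show 4 ≠ 0 by norm_num)
    linarith
  set m₀ := n / 4 with hm₀
  have hm : 4 * m₀ ≤ n := Nat.mul_div_le n 4
  have hm8 : (n : ℝ) / 8 ≤ m₀ := by
    have : n ≤ 8 * m₀ := by omega
    have : (n : ℝ) ≤ 8 * m₀ := by exact_mod_cast this
    linarith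
  have hmn : (m₀ : ℝ) ≤ n := by
    have : m₀ ≤ n := by omega
    exact_mod_cast this
  set x : ℝ := (m₀ : ℝ) ^ 7 * (p ^ 4 * (1 - p) ^ (n ^ 2 - 4)) with hx
  have h1p : 0 ≤ 1 - p := by linarith
  have hx0 : 0 ≤ x := by rw [hx]; positivity
  have hx1 : x ≤ 1 := by
    have a1 : (1 - p) ^ (n ^ 2 - 4) ≤ 1 := pow_le_one₀ h1p (by linarith)
    have a2 : (m₀ : ℝ) ^ 7 ≤ (n : ℝ) ^ 7 := pow_le_pow_left₀ (by positivity) hmn 7
    have a3 : x ≤ (n : ℝ) ^ 7 * (p ^ 4 * 1) := by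
      rw [hx]
      gcongr
    have a4 : (n : ℝ) ^ 7 * (p ^ 4 * 1) ≤ (p * (n : ℝ) ^ 3) ^ 4 := by
      have : (p * (n : ℝ) ^ 3) ^ 4 = (n : ℝ) ^ 12 * (p ^ 4 * 1) := by ring
      rw [this]
      apply mul_le_mul_of_nonneg_right _ (by positivity)
      exact pow_le_pow_right₀ (by linarith) (by norm_num)
    have a5 : (p * (n : ℝ) ^ 3) ^ 4 ≤ 1 := pow_le_one₀ (by positivity) hpn
    linarith
  have h3 := upper_bound' (p := p) (d := d) (by omega) (show 0 < n by omega) hm h0 h1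
  have h4 : law n d p {ω | ¬ SubgraphOpen 3 2 ω} = 1 / 2 := by
    have e : {ω : V n d → Bool | ¬ SubgraphOpen 3 2 ω} = {ω | SubgraphOpen 3 2 ω}ᶜ := rfl
    rw [e, prob_compl_eq_one_sub (Set.toFinite _).measurableSet, h2]
    simp
  have h5 : (1 - ((m₀ ^ 7 : ℕ) : ℝ≥0∞) * (ENNReal.ofReal p ^ 4 *
      ENNReal.ofReal (1 - p) ^ (n ^ 2 - 4))) ^ (n ^ (d - 2)) =
      ENNReal.ofReal ((1 - x) ^ (n ^ (d - 2))) := by
    rw [ENNReal.ofReal_pow (by linarith), ENNReal.ofReal_sub _ hx0, ENNReal.ofReal_one, hx,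
      ENNReal.ofReal_mul (by positivity), ENNReal.ofReal_mul (by positivity),
      ENNReal.ofReal_pow h0, ENNReal.ofReal_pow h1p]
    congr 4
    rw [← Nat.cast_pow, ENNReal.ofReal_natCast]
  rw [h4, h5] at h3
  have h6 : (1:ℝ) / 2 ≤ (1 - x) ^ (n ^ (d - 2)) := by
    have : ENNReal.ofReal (1 / 2) ≤ ENNReal.ofReal ((1 - x) ^ (n ^ (d - 2))) := by
      refine le_trans (le_of_eq ?_) h3
      rw [ENNReal.ofReal_div_of_pos (by norm_num)]
      simp
    exact (ENNReal.ofReal_le_ofReal_iff (pow_nonneg (by linarith) _)).1 this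
  have h7 : (1 - x) ^ (n ^ (d - 2)) ≤ Real.exp (-(x * (n : ℝ) ^ (d - 2))) := by
    calc (1 - x) ^ (n ^ (d - 2)) ≤ (Real.exp (-x)) ^ (n ^ (d - 2)) := by
          apply pow_le_pow_left₀ (by linarith)
          exact Real.one_sub_le_exp_neg _
      _ = Real.exp (-(x * (n : ℝ) ^ (d - 2))) := by
          rw [← Real.exp_nat_mul]
          congr 1
          push_cast
          ring
  have h8 : x * (n : ℝ) ^ (d - 2) ≤ 1 := by
    by_contra hcon
    rw [not_le] at hcon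
    have h8 : Real.exp (-(x * (n : ℝ) ^ (d - 2))) < Real.exp (-1) :=
      Real.exp_lt_exp.mpr (by linarith)
    have h9 : Real.exp (-1) < 1 / 2 := by
      have := Real.exp_neg_one_lt_d9
      linarith
    linarith
  have h9 : (1 : ℝ) / 2 ≤ (1 - p) ^ (n ^ 2 - 4) := by
    have a1 := one_add_mul_le_pow (show (-2 : ℝ) ≤ -p by linarith) (n ^ 2 - 4)
    have a2 : ((n ^ 2 - 4 : ℕ) : ℝ) ≤ (n : ℝ) ^ 2 := by
      have : n ^ 2 - 4 ≤ n ^ 2 := Nat.sub_le _ _
      exact_mod_cast this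
    have a3 : (n : ℝ) ^ 2 * p ≤ 1 / 2 := by
      have : (n : ℝ) ^ 2 * p * n ≤ 1 := by
        calc (n : ℝ) ^ 2 * p * n = p * (n : ℝ) ^ 3 := by ring
          _ ≤ 1 := hpn
      have h10 : 0 ≤ (n : ℝ) ^ 2 * p := by positivity
      nlinarith
    have a4 : ((n ^ 2 - 4 : ℕ) : ℝ) * p ≤ (n : ℝ) ^ 2 * p := mul_le_mul_of_nonneg_right a2 h0
    have a5 : (1 + -p) ^ (n ^ 2 - 4) = (1 - p) ^ (n ^ 2 - 4) := by ring
    rw [a5] at a1
    linarith
  have h10 : ((n : ℝ) / 8) ^ 7 * (p ^ 4 * (1 / 2)) ≤ x := by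
    rw [hx]
    have : ((n : ℝ) / 8) ^ 7 ≤ (m₀ : ℝ) ^ 7 := pow_le_pow_left₀ (by positivity) hm8 7
    gcongr
  have h11 : ((n : ℝ) / 8) ^ 7 * (p ^ 4 * (1 / 2)) * (n : ℝ) ^ (d - 2) ≤ 1 :=
    (mul_le_mul_of_nonneg_right h10 (by positivity)).trans h8
  have h12 : p ^ 4 * (n : ℝ) ^ (d + 5) =
      2 ^ 22 * (((n : ℝ) / 8) ^ 7 * (p ^ 4 * (1 / 2)) * (n : ℝ) ^ (d - 2)) := by
    have : (n : ℝ) ^ (d + 5) = (n : ℝ) ^ 7 * (n : ℝ) ^ (d - 2) := by
      rw [← pow_add]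
      congr 1
      omega
    rw [this]
    ring
  rw [h12]
  linarith

/-- The gap between the critical values for a plane and for the whole torus, threshold three. -/
theorem gap {m : ℕ} (hm : 1 ≤ m) (hd : 3 * m < 2 * d + 3) (hd14 : 14 ≤ d) {δ : ℝ}
    (hδ : ∀ k : ℕ, m < k → k ≤ 2 * m →
      δ < ((d : ℝ) + 5) / 4 - ((d : ℝ) + (fd k : ℝ) * ((k : ℝ) - 1)) / k) :
    ∀ᶠ n : ℕ in Filter.atTop,
      (∃ p, IsCritical n d 3 2 p) ∧ (∃ q, IsCritical n d 3 d q) ∧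
      ∀ p q, IsCritical n d 3 2 p → IsCritical n d 3 d q →
        δ ≤ Real.logb n q - Real.logb n p := by
  set c : ℝ := 22 / 4 * Real.log 2 + Real.log (m * 2 ^ (d + 1)) with hc
  have hlim : Filter.Tendsto (fun n : ℕ => c / Real.log n) Filter.atTop (nhds 0) := by
    apply Filter.Tendsto.div_atTop tendsto_const_nhds
    exact Real.tendsto_log_atTop.comp tendsto_natCast_atTop_atTop
  have hev : ∀ᶠ n : ℕ in Filter.atTop, ∀ k ∈ Ioc m (2 * m), c / Real.log n <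
      ((d : ℝ) + 5) / 4 - ((d : ℝ) + (fd k : ℝ) * ((k : ℝ) - 1)) / k - δ := by
    rw [Filter.eventually_all_finset]
    intro k hk
    rw [mem_Ioc] at hk
    have := hδ k hk.1 hk.2
    exact hlim.eventually (gt_mem_nhds (by linarith))
  filter_upwards [hev, Filter.eventually_ge_atTop 8] with n hn1 hn
  refine ⟨exists_critical (by norm_num) (by omega) (by omega),
    exists_critical (by norm_num) le_rfl (by omega), ?_⟩
  intro p q hp hq
  obtain ⟨hp0, hp1⟩ := crit_two' hd14 hn hp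
  obtain ⟨hq0, k, hk1, hk2, hq1⟩ := crit_top hm hd (by omega) hq
  have hnr : (8:ℝ) ≤ n := by exact_mod_cast hn
  have hlog : 0 < Real.log n := Real.log_pos (by linarith)
  have hn0 : (0:ℝ) < n := by linarith
  have hm0 : (0:ℝ) < m := by exact_mod_cast hm
  have hm1 : (1:ℝ) ≤ m := by exact_mod_cast hm
  have hk0 : (1:ℝ) ≤ k := by
    have : 1 ≤ k := by omega
    exact_mod_cast this
  have e1 : 4 * Real.log p + ((d : ℝ) + 5) * Real.log n ≤ 22 * Real.log 2 := by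
    have h := Real.log_le_log (by positivity) hp1
    rw [Real.log_mul (by positivity) (by positivity), Real.log_pow, Real.log_pow,
      Real.log_pow] at h
    push_cast at h
    exact h
  have e2 : 0 ≤ Real.log (m * 2 ^ (d + 1)) + ((d : ℝ) + (fd k : ℝ) * ((k : ℝ) - 1)) *
      Real.log n + k * Real.log q := by
    have h := Real.log_le_log one_pos hq1
    rw [Real.log_one, Real.log_mul (by positivity) (by positivity),
      Real.log_mul (by positivity) (by positivity), Real.log_pow, Real.log_pow] at h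
    rw [Nat.cast_add, Nat.cast_mul, Nat.cast_sub (show 1 ≤ k by omega), Nat.cast_one] at h
    exact h
  have e3 : 0 ≤ Real.log (m * 2 ^ (d + 1)) := by
    apply Real.log_nonneg
    have : (1 : ℝ) ≤ 2 ^ (d + 1) := one_le_pow₀ (by norm_num)
    nlinarith
  have e4 := hn1 k (mem_Ioc.2 ⟨hk1, hk2⟩)
  rw [div_lt_iff₀ hlog] at e4
  rw [Real.logb, Real.logb, ← sub_div, le_div_iff₀ hlog]
  have e5 : 0 ≤ Real.log (m * 2 ^ (d + 1)) + ((d : ℝ) + (fd k : ℝ) * ((k : ℝ) - 1)) / k *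
      Real.log n + Real.log q := by
    have h1 : Real.log (m * 2 ^ (d + 1)) / k ≤ Real.log (m * 2 ^ (d + 1)) :=
      div_le_self e3 hk0
    have h2 : 0 ≤ (Real.log (m * 2 ^ (d + 1)) + ((d : ℝ) + (fd k : ℝ) * ((k : ℝ) - 1)) *
      Real.log n + k * Real.log q) / k := by positivity
    have h3 : (Real.log (m * 2 ^ (d + 1)) + ((d : ℝ) + (fd k : ℝ) * ((k : ℝ) - 1)) *
      Real.log n + k * Real.log q) / k = Real.log (m * 2 ^ (d + 1)) / k +
        ((d : ℝ) + (fd k : ℝ) * ((k : ℝ) - 1)) / k * Real.log n + Real.log q := by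
      field_simp
    rw [h3] at h2
    linarith
  have e6 : c = 22 / 4 * Real.log 2 + Real.log (m * 2 ^ (d + 1)) := rfl
  rw [e6] at e4
  nlinarith

end Pool.Agent.KS6_54.HT
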