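import Mathlib
import Pool.Agent.KS6_54.HT.HamE

/-!
Bootstrap percolation on Hamming tori: arbitrary thresholds.
-/

set_option autoImplicit false

open Finset MeasureTheory ProbabilityTheory
open scoped ENNReal

namespace Pool.Agent.KS6_54.HT

variable {n d : ℕ}

lemma final_of_many {θ : ℕ} {ω : V n d → Bool} {v : V n d} (S : Finset (V n d))
    (hS : θ ≤ S.card) (hd : ∀ x ∈ S, hammingDist v x = 1) (hf : ∀ x ∈ S, FinalOpen θ ω x) :
    FinalOpen θ ω v := by
  classical
  choose! j hj using hf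
  have h1 : ∀ x ∈ S, (step θ)^[S.sup j] ω x = true :=
    fun x hx => iter_mono (Finset.le_sup hx) (hj x hx)
  refine ⟨S.sup j + 1, ?_⟩
  rw [Function.iterate_succ_apply', step, Bool.or_eq_true]
  right
  rw [decide_eq_true_iff]
  refine hS.trans (card_le_card ?_)
  intro x hx
  rw [mem_filter]
  exact ⟨mem_univ _, hd x hx, h1 x hx⟩

theorem plane_open' {θ : ℕ} {b : V n d} {k0 k1 : Fin d} (hk : k0 ≠ k1) {f : ℕ → Fin n}
    (hf : ∀ i j, i < θ → j < θ → f i = f j → i = j) {ω : V n d → Bool}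
    (h : ∀ i j, i < θ → j < θ - i → FinalOpen θ ω (pt b k0 k1 (f i) (f j)))
    (r c : Fin n) : FinalOpen θ ω (pt b k0 k1 r c) := by
  classical
  have rows : ∀ i, i < θ → ∀ c, FinalOpen θ ω (pt b k0 k1 (f i) c) := by
    intro i
    induction i using Nat.strong_induction_on with
    | _ i ih =>
    intro hi c
    by_cases hc : ∃ j, j < θ - i ∧ c = f j
    · obtain ⟨j, hj, rfl⟩ := hc
      exact h i j hi hj
    · push Not at hc
      have d1 : Disjoint ((range i).image fun i' => pt b k0 k1 (f i') c)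
          ((range (θ - i)).image fun j => pt b k0 k1 (f i) (f j)) := by
        rw [disjoint_left]
        intro x hx hx'
        obtain ⟨i', hi', rfl⟩ := mem_image.1 hx
        obtain ⟨j, hj, he⟩ := mem_image.1 hx'
        have := (pt_inj hk he).1
        rw [mem_range] at hi'
        have := hf i i' hi (by omega) this
        omega
      refine final_of_many (((range i).image fun i' => pt b k0 k1 (f i') c) ∪
        ((range (θ - i)).image fun j => pt b k0 k1 (f i) (f j))) ?_ ?_ ?_
      · rw [card_union_of_disjoint d1, card_image_of_injOn, card_image_of_injOn, card_range,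
          card_range]
        · omega
        · intro j hj j' hj' he
          have := (pt_inj hk he).2
          rw [coe_range, Set.mem_Iio] at hj hj'
          exact hf j j' (by omega) (by omega) this
        · intro j hj j' hj' he
          have := (pt_inj hk he).1
          rw [coe_range, Set.mem_Iio] at hj hj'
          exact hf j j' (by omega) (by omega) this
      · intro x hx
        rcases mem_union.1 hx with hx | hx
        · obtain ⟨i', hi', rfl⟩ := mem_image.1 hx
          rw [mem_range] at hi'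
          refine dist_row hk fun he => ?_
          have := hf i i' hi (by omega) he
          omega
        · obtain ⟨j, hj, rfl⟩ := mem_image.1 hx
          rw [mem_range] at hj
          exact dist_col (hc j hj)
      · intro x hx
        rcases mem_union.1 hx with hx | hx
        · obtain ⟨i', hi', rfl⟩ := mem_image.1 hx
          rw [mem_range] at hi'
          exact ih i' hi' (by omega) c
        · obtain ⟨j, hj, rfl⟩ := mem_image.1 hx
          rw [mem_range] at hj
          exact h i j hi hj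
  by_cases hr : ∃ i, i < θ ∧ r = f i
  · obtain ⟨i, hi, rfl⟩ := hr
    exact rows i hi c
  · push Not at hr
    refine final_of_many ((range θ).image fun i => pt b k0 k1 (f i) c) ?_ ?_ ?_
    · rw [card_image_of_injOn, card_range]
      intro j hj j' hj' he
      have := (pt_inj hk he).1
      rw [coe_range, Set.mem_Iio] at hj hj'
      exact hf j j' hj hj' this
    · intro x hx
      obtain ⟨i, hi, rfl⟩ := mem_image.1 hx
      rw [mem_range] at hi
      exact dist_row hk (hr i hi)
    · intro x hx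
      obtain ⟨i, hi, rfl⟩ := mem_image.1 hx
      rw [mem_range] at hi
      exact rows i hi c

/-- the number of points of the pattern -/
def tri (θ : ℕ) : ℕ := ∑ i ∈ range θ, (θ - i)

lemma two_mul_tri (θ : ℕ) : 2 * tri θ = θ * (θ + 1) := by
  induction θ with
  | zero => simp [tri]
  | succ θ ih =>
    have h : tri (θ + 1) = tri θ + (θ + 1) := by
      unfold tri
      rw [Finset.sum_range_succ']
      simp
    rw [h, mul_add, ih]
    ring

theorem upper_bound_theta {θ : ℕ} (hθ : 1 ≤ θ) (hd : 2 ≤ d) (hn : θ ≤ n) {p : ℝ} (h0 : 0 ≤ p)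
    (h1 : p ≤ 1) :
    law n d p {ω | ¬ SubgraphOpen θ 2 ω} ≤ (1 - ENNReal.ofReal p ^ tri θ) ^ (n ^ (d - 2)) := by
  classical
  set k0 : Fin d := ⟨0, by omega⟩ with hk0
  set k1 : Fin d := ⟨1, by omega⟩ with hk1
  have hk : k0 ≠ k1 := by simp [hk0, hk1]
  set f : ℕ → Fin n := fun i => ⟨i % n, Nat.mod_lt _ (by omega)⟩ with hf
  have hfi : ∀ i j, i < θ → j < θ → f i = f j → i = j := by
    intro i j hi hj h
    have := congrArg Fin.val h
    simp only [hf] at this
    rw [Nat.mod_eq_of_lt (by omega), Nat.mod_eq_of_lt (by omega)] at this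
    exact this
  set K : V n d → Finset (V n d) := fun b =>
    ((range θ).sigma fun i => range (θ - i)).image fun x => pt b k0 k1 (f x.1) (f x.2) with hK
  have hKcard : ∀ b ∈ base k0 k1 (f 0), (K b).card = tri θ := by
    intro b _
    simp only [hK]
    rw [card_image_of_injOn, card_sigma]
    · unfold tri
      exact sum_congr rfl fun i _ => card_range _
    · rintro ⟨i, j⟩ hx ⟨i', j'⟩ hx' he
      have h1 := mem_sigma.1 (mem_coe.1 hx)
      have h2 := mem_sigma.1 (mem_coe.1 hx')
      simp only [mem_range] at h1 h2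
      have h3 := pt_inj hk he
      have h4 := hfi i i' h1.1 h2.1 h3.1
      have h5 := hfi j j' (by omega) (by omega) h3.2
      subst h4
      subst h5
      rfl
  have hoff : ∀ b, ∀ x ∈ K b, ∀ k, k ≠ k0 → k ≠ k1 → x k = b k := by
    intro b x hx k h0 h1
    simp only [hK] at hx
    obtain ⟨y, _, rfl⟩ := mem_image.1 hx
    simp only [pt, Function.update_of_ne h0, Function.update_of_ne h1]
  have hdisj : ∀ b ∈ base k0 k1 (f 0), ∀ b' ∈ base k0 k1 (f 0), b ≠ b' → Disjoint (K b) (K b') := by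
    intro b hb b' hb' hne
    rw [disjoint_left]
    intro x hx hx'
    apply hne
    rw [mem_base] at hb hb'
    funext k
    by_cases e0 : k = k0
    · rw [e0, hb.1, hb'.1]
    by_cases e1 : k = k1
    · rw [e1, hb.2, hb'.2]
    rw [← hoff b x hx k e0 e1, ← hoff b' x hx' k e0 e1]
  rw [← card_base hk (f 0), ← law_none h0 h1 hKcard hdisj]
  apply measure_mono
  intro ω hω b _ hall
  apply hω
  refine ⟨{k0, k1}, card_pair hk, b, fun x hx => ?_⟩
  rw [eq_pt hx]
  refine plane_open' hk hfi (fun i j hi hj => final_of_init (hall _ ?_)) _ _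
  simp only [hK]
  exact mem_image.2 ⟨⟨i, j⟩, mem_sigma.2 ⟨mem_range.2 hi, mem_range.2 hj⟩, rfl⟩

/-- a higher threshold opens fewer sites -/
lemma final_anti {θ θ' : ℕ} (h : θ ≤ θ') {ω : V n d → Bool} {v : V n d}
    (hv : FinalOpen θ' ω v) : FinalOpen θ ω v := by
  have key : ∀ j v, (step θ')^[j] ω v = true → (step θ)^[j] ω v = true := by
    intro j
    induction j with
    | zero => intro v h; exact h
    | succ j ih =>
      intro v hv
      rw [Function.iterate_succ_apply', step, Bool.or_eq_true] at hv ⊢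
      rcases hv with hv | hv
      · exact Or.inl (ih v hv)
      · right
        rw [decide_eq_true_iff] at hv ⊢
        refine h.trans (hv.trans (card_le_card ?_))
        intro x hx
        rw [mem_filter] at hx ⊢
        exact ⟨hx.1, hx.2.1, ih x hx.2.2⟩
  obtain ⟨j, hj⟩ := hv
  exact ⟨j, key j v hj⟩

lemma sub_anti {θ θ' i : ℕ} (h : θ ≤ θ') {ω : V n d → Bool} (hv : SubgraphOpen θ' i ω) :
    SubgraphOpen θ i ω := by
  obtain ⟨J, hJ, a, ha⟩ := hv
  exact ⟨J, hJ, a, fun x hx => final_anti h (ha x hx)⟩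

lemma crit_pos {θ i : ℕ} (hθ : 1 ≤ θ) {p : ℝ} (hp : IsCritical n d θ i p) : 0 < p := by
  obtain ⟨h0, h1, h2⟩ := hp
  rcases h0.lt_or_eq with h | h
  · exact h
  · exfalso
    rw [← h] at h2
    have h8 : law n d 0 {ω | SubgraphOpen θ i ω} ≤ law n d 0 {ω | ¬ ∀ x, ω x = false} := by
      apply measure_mono
      intro ω hω hcon
      obtain ⟨J, _, a, ha⟩ := hω
      have hω0 : ω = fun _ => false := funext hcon
      have hstep : step θ (fun _ : V n d => false) = fun _ => false := by
        funext v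
        simp only [step, Bool.false_or, Bool.false_eq_true, and_false, filter_false, card_empty,
          decide_eq_false_iff_not]
        omega
      have hit : ∀ j, (step θ)^[j] (fun _ : V n d => false) = fun _ => false := by
        intro j
        induction j with
        | zero => rfl
        | succ j ih => rw [Function.iterate_succ_apply', ih, hstep]
      obtain ⟨j, hj⟩ := ha a (fun _ _ => rfl)
      rw [hω0, hit j] at hj
      exact absurd hj (by simp)
    have h9 : law n d 0 {ω : V n d → Bool | ¬ ∀ x, ω x = false} = 0 := by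
      have hsub : {ω : V n d → Bool | ¬ ∀ x, ω x = false} ⊆
          ⋃ x : V n d, {ω | ∀ y ∈ ({x} : Finset (V n d)), ω y = true} := by
        intro ω hω
        simp only [Set.mem_ofPred_eq, not_forall] at hω
        obtain ⟨x, hx⟩ := hω
        rw [Set.mem_iUnion]
        exact ⟨x, by simpa using hx⟩
      refine measure_mono_null hsub (measure_iUnion_null fun x => ?_)
      rw [law_all le_rfl zero_le_one]
      simp
    rw [h2, h9] at h8
    simp at h8

lemma crit_two_theta {θ : ℕ} (hθ : 1 ≤ θ) (hd : 2 ≤ d) (hn : θ ≤ n) {p : ℝ}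
    (hp : IsCritical n d θ 2 p) :
    0 < p ∧ p ^ tri θ * (n : ℝ) ^ (d - 2) ≤ 1 := by
  have hp0 := crit_pos hθ hp
  obtain ⟨h0, h1, h2⟩ := hp
  have hprob : IsProbabilityMeasure (law n d p) := by
    have := siteLaw_prob h0 h1
    unfold law; infer_instance
  have h3 := upper_bound_theta hθ hd hn h0 h1
  have h4 : law n d p {ω | ¬ SubgraphOpen θ 2 ω} = 1 / 2 := by
    have e : {ω : V n d → Bool | ¬ SubgraphOpen θ 2 ω} = {ω | SubgraphOpen θ 2 ω}ᶜ := rfl
    rw [e, prob_compl_eq_one_sub (Set.toFinite _).measurableSet, h2]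
    simp
  have hp4 : p ^ tri θ ≤ 1 := pow_le_one₀ h0 h1
  have h5 : (1 - ENNReal.ofReal p ^ tri θ) ^ (n ^ (d - 2)) =
      ENNReal.ofReal ((1 - p ^ tri θ) ^ (n ^ (d - 2))) := by
    rw [ENNReal.ofReal_pow (by linarith), ENNReal.ofReal_sub _ (by positivity), ENNReal.ofReal_one,
      ENNReal.ofReal_pow h0]
  rw [h4, h5] at h3
  have h6 : (1:ℝ) / 2 ≤ (1 - p ^ tri θ) ^ (n ^ (d - 2)) := by
    have : ENNReal.ofReal (1 / 2) ≤ ENNReal.ofReal ((1 - p ^ tri θ) ^ (n ^ (d - 2))) := by
      refine le_trans (le_of_eq ?_) h3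
      rw [ENNReal.ofReal_div_of_pos (by norm_num)]
      simp
    exact (ENNReal.ofReal_le_ofReal_iff (pow_nonneg (by linarith) _)).1 this
  have h7 : (1 - p ^ tri θ) ^ (n ^ (d - 2)) ≤ Real.exp (-(p ^ tri θ * (n : ℝ) ^ (d - 2))) := by
    calc (1 - p ^ tri θ) ^ (n ^ (d - 2)) ≤ (Real.exp (-(p ^ tri θ))) ^ (n ^ (d - 2)) := by
          apply pow_le_pow_left₀ (by linarith)
          exact Real.one_sub_le_exp_neg _
      _ = Real.exp (-(p ^ tri θ * (n : ℝ) ^ (d - 2))) := by
          rw [← Real.exp_nat_mul]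
          congr 1
          push_cast
          ring
  refine ⟨hp0, ?_⟩
  by_contra hcon
  rw [not_le] at hcon
  have h8 : Real.exp (-(p ^ tri θ * (n : ℝ) ^ (d - 2))) < Real.exp (-1) :=
    Real.exp_lt_exp.mpr (by linarith)
  have h9 : Real.exp (-1) < 1 / 2 := by
    have := Real.exp_neg_one_lt_d9
    linarith
  linarith

lemma crit_top_theta {θ : ℕ} (hθ : 3 ≤ θ) {m : ℕ} (hm : 1 ≤ m) (hd : 3 * m < 2 * d + 3)
    (hn : 2 ≤ n) {q : ℝ} (hq : IsCritical n d θ d q) :
    0 < q ∧ ∃ k, m < k ∧ k ≤ 2 * m ∧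
      1 ≤ m * 2 ^ (d + 1) * (n : ℝ) ^ (d + fd k * (k - 1)) * q ^ k := by
  have hq0 := crit_pos (by omega) hq
  obtain ⟨h0, h1, h2⟩ := hq
  have h3 : law n d q {ω | SubgraphOpen θ d ω} ≤ _ :=
    (measure_mono (fun ω hω => sub_anti hθ hω)).trans (lower_bound hm hd hn h0 h1)
  rw [h2] at h3
  exact ⟨hq0, top_aux hm h0 h3⟩

/-- For all large `n` the critical values for a plane and for the whole torus exist and
`log_n p_c(d, d) - log_n p_c(2, d)` is at least `δ`. -/
def Gap (θ d : ℕ) (δ : ℝ) : Prop :=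
  ∀ᶠ n : ℕ in Filter.atTop,
    (∃ p, IsCritical n d θ 2 p) ∧ (∃ q, IsCritical n d θ d q) ∧
    ∀ p q, IsCritical n d θ 2 p → IsCritical n d θ d q →
      δ ≤ Real.logb n q - Real.logb n p

theorem gap_gen {θ : ℕ} (hθ : 3 ≤ θ) {m : ℕ} (hm : 1 ≤ m) (hd : 3 * m < 2 * d + 3)
    (hd2 : 2 ≤ d) {A B c₁ δ : ℝ} (hA : 0 < A)
    (hP : ∀ᶠ n : ℕ in Filter.atTop, ∀ p, IsCritical n d θ 2 p →
      A * Real.log p + B * Real.log n ≤ c₁)
    (hδ : ∀ k : ℕ, m < k → k ≤ 2 * m →
      δ < B / A - ((d : ℝ) + (fd k : ℝ) * ((k : ℝ) - 1)) / k) : Gap θ d δ := by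
  set c : ℝ := c₁ / A + Real.log (m * 2 ^ (d + 1)) with hc
  have hlim : Filter.Tendsto (fun n : ℕ => c / Real.log n) Filter.atTop (nhds 0) := by
    apply Filter.Tendsto.div_atTop tendsto_const_nhds
    exact Real.tendsto_log_atTop.comp tendsto_natCast_atTop_atTop
  have hev : ∀ᶠ n : ℕ in Filter.atTop, ∀ k ∈ Ioc m (2 * m), c / Real.log n <
      B / A - ((d : ℝ) + (fd k : ℝ) * ((k : ℝ) - 1)) / k - δ := by
    rw [Filter.eventually_all_finset]
    intro k hk
    rw [mem_Ioc] at hk
    have := hδ k hk.1 hk.2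
    exact hlim.eventually (gt_mem_nhds (by linarith))
  filter_upwards [hev, hP, Filter.eventually_ge_atTop 8] with n hn1 hP hn
  refine ⟨exists_critical (by omega) (by omega) (by omega),
    exists_critical (by omega) le_rfl (by omega), ?_⟩
  intro p q hp hq
  have hp1 := hP p hp
  obtain ⟨hq0, k, hk1, hk2, hq1⟩ := crit_top_theta hθ hm hd (by omega) hq
  have hnr : (8:ℝ) ≤ n := by exact_mod_cast hn
  have hlog : 0 < Real.log n := Real.log_pos (by linarith)
  have hn0 : (0:ℝ) < n := by linarith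
  have hm0 : (0:ℝ) < m := by exact_mod_cast hm
  have hm1 : (1:ℝ) ≤ m := by exact_mod_cast hm
  have hk0 : (1:ℝ) ≤ k := by
    have : 1 ≤ k := by omega
    exact_mod_cast this
  have e1 : Real.log p + B / A * Real.log n ≤ c₁ / A := by
    have h : (A * Real.log p + B * Real.log n) / A ≤ c₁ / A := by gcongr
    have h2 : (A * Real.log p + B * Real.log n) / A = Real.log p + B / A * Real.log n := by
      field_simp
    linarith
  have e2 : 0 ≤ Real.log (m * 2 ^ (d + 1)) + ((d : ℝ) + (fd k : ℝ) * ((k : ℝ) - 1)) *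
      Real.log n + k * Real.log q := by
    have h := Real.log_le_log one_pos hq1
    rw [Real.log_one, Real.log_mul (by positivity) (by positivity),
      Real.log_mul (by positivity) (by positivity), Real.log_pow, Real.log_pow] at h
    rw [Nat.cast_add, Nat.cast_mul, Nat.cast_sub (show 1 ≤ k by omega), Nat.cast_one] at h
    exact h
  have e3 : 0 ≤ Real.log (m * 2 ^ (d + 1)) := by
    apply Real.log_nonneg
    have : (1 : ℝ) ≤ 2 ^ (d + 1) := one_le_pow₀ (by norm_num)
    nlinarith
  have e4 := hn1 k (mem_Ioc.2 ⟨hk1, hk2⟩)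
  rw [div_lt_iff₀ hlog] at e4
  rw [Real.logb, Real.logb, ← sub_div, le_div_iff₀ hlog]
  have e5 : 0 ≤ Real.log (m * 2 ^ (d + 1)) + ((d : ℝ) + (fd k : ℝ) * ((k : ℝ) - 1)) / k *
      Real.log n + Real.log q := by
    have h1 : Real.log (m * 2 ^ (d + 1)) / k ≤ Real.log (m * 2 ^ (d + 1)) :=
      div_le_self e3 hk0
    have h2 : 0 ≤ (Real.log (m * 2 ^ (d + 1)) + ((d : ℝ) + (fd k : ℝ) * ((k : ℝ) - 1)) *
      Real.log n + k * Real.log q) / k := by positivity
    have h3 : (Real.log (m * 2 ^ (d + 1)) + ((d : ℝ) + (fd k : ℝ) * ((k : ℝ) - 1)) *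
      Real.log n + k * Real.log q) / k = Real.log (m * 2 ^ (d + 1)) / k +
        ((d : ℝ) + (fd k : ℝ) * ((k : ℝ) - 1)) / k * Real.log n + Real.log q := by
      field_simp
    rw [h3] at h2
    linarith
  have e6 : c = c₁ / A + Real.log (m * 2 ^ (d + 1)) := rfl
  rw [e6] at e4
  nlinarith

lemma plane_three (hd : 14 ≤ d) : ∀ᶠ n : ℕ in Filter.atTop, ∀ p, IsCritical n d 3 2 p →
    (4 : ℝ) * Real.log p + ((d : ℝ) + 5) * Real.log n ≤ 22 * Real.log 2 := by
  filter_upwards [Filter.eventually_ge_atTop 8] with n hn p hp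
  obtain ⟨hp0, hp1⟩ := crit_two' hd hn hp
  have hnr : (8:ℝ) ≤ n := by exact_mod_cast hn
  have hn0 : (0:ℝ) < n := by linarith
  have h := Real.log_le_log (by positivity) hp1
  rw [Real.log_mul (by positivity) (by positivity), Real.log_pow, Real.log_pow,
    Real.log_pow] at h
  push_cast at h
  exact h

lemma plane_theta {θ : ℕ} (hθ : 1 ≤ θ) (hd : 2 ≤ d) : ∀ᶠ n : ℕ in Filter.atTop,
    ∀ p, IsCritical n d θ 2 p → (tri θ : ℝ) * Real.log p + ((d : ℝ) - 2) * Real.log n ≤ 0 := by
  filter_upwards [Filter.eventually_ge_atTop (max θ 8)] with n hn p hp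
  obtain ⟨hp0, hp1⟩ := crit_two_theta hθ hd (by omega) hp
  have hn8 : 8 ≤ n := by omega
  have hnr : (8:ℝ) ≤ n := by exact_mod_cast hn8
  have hn0 : (0:ℝ) < n := by linarith
  have h := Real.log_le_log (by positivity) hp1
  rw [Real.log_one, Real.log_mul (by positivity) (by positivity), Real.log_pow, Real.log_pow,
    Nat.cast_sub hd] at h
  exact_mod_cast h

/-- the largest exponent with the best number of points -/
lemma expo_le (hd : 1 ≤ d) : ∃ m : ℕ, 1 ≤ m ∧ 3 * m < 2 * d + 3 ∧ ∀ k : ℕ, m < k → k ≤ 2 * m →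
    ((d : ℝ) + (fd k : ℝ) * ((k : ℝ) - 1)) / k < 7 / 2 * √(d : ℝ) + 3 / 2 := by
  set s := √(d : ℝ) with hs
  have hd1 : (1 : ℝ) ≤ d := by exact_mod_cast hd
  have hss : s * s = d := Real.mul_self_sqrt (by positivity)
  have hs1 : 1 ≤ s := by
    rw [hs]
    exact Real.one_le_sqrt.2 hd1
  refine ⟨⌈4 / 7 * s⌉₊, Nat.one_le_ceil_iff.2 (by positivity), ?_, ?_⟩
  · have h1 := Nat.ceil_lt_add_one (show 0 ≤ 4 / 7 * s by positivity)
    have h2 : ((3 * ⌈4 / 7 * s⌉₊ : ℕ) : ℝ) < ((2 * d + 3 : ℕ) : ℝ) := by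
      push_cast
      rw [← hss]
      nlinarith
    exact_mod_cast h2
  · intro k hk1 hk2
    have h1 := Nat.ceil_lt_add_one (show 0 ≤ 4 / 7 * s by positivity)
    have h2 := Nat.le_ceil (4 / 7 * s)
    have hk1' : (⌈4 / 7 * s⌉₊ : ℝ) + 1 ≤ k := by exact_mod_cast hk1
    have hk2' : (k : ℝ) ≤ 2 * (⌈4 / 7 * s⌉₊ : ℝ) := by exact_mod_cast hk2
    have hk0 : (1 : ℝ) ≤ k := by
      have : (0 : ℝ) ≤ (⌈4 / 7 * s⌉₊ : ℝ) := by positivity
      linarith
    have hf : (fd k : ℝ) ≤ (3 * k - 2) / 2 := by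
      have h3 : 2 * fd k ≤ 3 * k - 2 := Nat.mul_div_le _ _
      have h4 : 2 ≤ 3 * k := by
        have : 1 ≤ k := by exact_mod_cast hk0
        omega
      have h5 : ((2 * fd k : ℕ) : ℝ) ≤ ((3 * k - 2 : ℕ) : ℝ) := by exact_mod_cast h3
      rw [Nat.cast_sub h4] at h5
      push_cast at h5
      linarith
    rw [div_lt_iff₀ (by linarith)]
    have h6 : (fd k : ℝ) * ((k : ℝ) - 1) ≤ (3 * k - 2) / 2 * ((k : ℝ) - 1) :=
      mul_le_mul_of_nonneg_right hf (by linarith)
    have h7 : (d : ℝ) ≤ 7 / 4 * s * k := by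
      rw [← hss]
      nlinarith
    have h8 : (k : ℝ) < 8 / 7 * s + 2 := by linarith
    nlinarith

end Pool.Agent.KS6_54.HT
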